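import Mathlib
import Pool.Agent.H62B.Defs
import Pool.Agent.H62B.Main

/-!
# Multiplication in `C(X)` is uniformly open when `X` has covering dimension at most one
-/

set_option autoImplicit false
open Topology
open scoped Pointwise

namespace Pool.Agent.Results.MP_64150f_an.UniformlyOpen

open Pool.Agent.H62B

/-- For every compact Hausdorff space `X` of covering dimension at most one, every `ε > 0` and all
continuous complex functions `a`, `b` on `X`, the ball of radius `ε ^ 2 / 256` about `a * b` is
contained in the product of the balls of radius `ε` about `a` and `b`. -/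
theorem result {X : Type*} [TopologicalSpace X] [CompactSpace X] [T2Space X]
    (hX : CovDimLE X 1) (ε : ℝ) (hε : 0 < ε) (a b : C(X, ℂ)) :
    Metric.ball (a * b) (ε ^ 2 / 256) ⊆ Metric.ball a ε * Metric.ball b ε := by
  intro h hh
  rw [Metric.mem_ball, dist_eq_norm] at hh
  have h1 : ∀ x, ‖h x - a x * b x‖ < (ε / 4) ^ 2 / 16 := by
    intro x
    have h2 := ContinuousMap.norm_coe_le_norm (h - a * b) x
    have h3 : (h - a * b) x = h x - a x * b x := rfl
    rw [h3] at h2
    have h4 : (ε / 4) ^ 2 / 16 = ε ^ 2 / 256 := by ring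
    rw [h4]
    exact h2.trans_lt hh
  obtain ⟨u, v, huv, hu, hv⟩ := factor hX a b h (ε / 4) (by positivity) h1
  refine Set.mem_mul.2 ⟨u, ?_, v, ?_, huv⟩
  · rw [Metric.mem_ball, dist_eq_norm]
    have : ‖u - a‖ ≤ 3 * (ε / 4) := by
      rw [ContinuousMap.norm_le _ (by positivity)]
      exact hu
    linarith
  · rw [Metric.mem_ball, dist_eq_norm]
    have : ‖v - b‖ ≤ 3 * (ε / 4) := by
      rw [ContinuousMap.norm_le _ (by positivity)]
      exact hv
    linarith

end Pool.Agent.Results.MP_64150f_an.UniformlyOpen
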